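import Mathlib
import Pool.Agent.H277R2.OM3

set_option autoImplicit false

namespace Pool.Agent.R489.Bor

open Finset Pool.Agent.H277R2.OM

theorem om_univ {E : Type*} : IsOM (Set.univ : Set (E → SignType)) := by
  classical
  refine ⟨Set.mem_univ _, fun _ _ => Set.mem_univ _, fun _ _ _ _ => Set.mem_univ _, ?_⟩
  intro X _ Y _ e he hXY
  refine ⟨fun f => if f = e then 0 else cmp X Y f, Set.mem_univ _, by simp, ?_⟩
  intro f hf
  have : f ≠ e := by
    rintro rfl
    rcases hf with h | h
    · exact he h
    · exact h hXY
  simp [this]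

/-- Tucker's lemma for all sign vectors on a finite type. -/
theorem tucker_univ {E : Type*} [Fintype E] (hE : 0 < Fintype.card E)
    (idx : (E → SignType) → ℕ) (s : (E → SignType) → ZMod 2)
    (hidx : ∀ X, X ≠ 0 → idx (-X) = idx X) (hs : ∀ X, X ≠ 0 → s (-X) = 1 + s X)
    (hc : ∀ X Y, X ≠ 0 → Y ≠ 0 → Le X Y → idx X = idx Y → s X = s Y)
    (I : Finset ℕ) (hI : ∀ X, X ≠ 0 → idx X ∈ I) : Fintype.card E ≤ I.card := by
  classical
  have hne : Nonempty E := Fintype.card_pos_iff.1 hE
  obtain ⟨x0⟩ := hne
  set q := Fintype.equivFin E with hq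
  set e : ℕ → E := fun n => if h : n < Fintype.card E then q.symm ⟨n, h⟩ else x0 with he
  have hinj : ∀ i j, i < Fintype.card E → j < Fintype.card E → e i = e j → i = j := by
    intro i j hi hj hij
    simp only [he, hi, hj, dif_pos] at hij
    have := q.symm.injective hij
    simpa using this
  refine tucker (L := Set.univ) om_univ e (Fintype.card E) hE ?_ ?_ idx s
    (fun X _ hX => hidx X hX) (fun X _ hX => hs X hX)
    (fun X _ Y _ hX hY h1 h2 => hc X Y hX hY h1 h2) I (fun X _ hX => hI X hX)
  · intro j hj
    refine ⟨fun x => if x = e j then 1 else 0, ⟨Set.mem_univ _, ?_⟩, by simp⟩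
    intro i hi
    have : e i ≠ e j := fun h => absurd (hinj i j (hi.trans hj) hj h) (by omega)
    simp [this]
  · rintro X ⟨-, hX⟩
    funext x
    have h1 : e (q x) = x := by simp [he]
    have := hX (q x) (q x).2
    rw [h1] at this
    exact this

/-- matroid rank functions on a finite type -/
structure IsRank {E : Type*} [DecidableEq E] (r : Finset E → ℕ) : Prop where
  mono : ∀ A B, A ⊆ B → r A ≤ r B
  le_card : ∀ A, r A ≤ A.card
  submod : ∀ A B, r (A ∪ B) + r (A ∩ B) ≤ r A + r B

section basics

variable {E : Type*} [DecidableEq E] {r : Finset E → ℕ}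

theorem IsRank.empty (h : IsRank r) : r ∅ = 0 := by
  have := h.le_card ∅
  simpa using this

theorem IsRank.union_le (h : IsRank r) (A B : Finset E) : r (A ∪ B) ≤ r A + r B := by
  have := h.submod A B
  omega

/-- adding sets in the closure does not change the rank -/
theorem IsRank.union_eq (h : IsRank r) {A B : Finset E} (hAB : r (A ∪ B) = r A) (C : Finset E) :
    r (A ∪ B ∪ C) = r (A ∪ C) := by
  apply le_antisymm
  · have h1 := h.submod (A ∪ B) (A ∪ C)
    have h2 : r A ≤ r ((A ∪ B) ∩ (A ∪ C)) := h.mono _ _ (by
      intro x hx; simp [hx])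
    have h3 : A ∪ B ∪ (A ∪ C) = A ∪ B ∪ C := by
      ext x; simp only [mem_union]; tauto
    rw [h3] at h1
    omega
  · exact h.mono _ _ (by intro x; simp only [mem_union]; tauto)

/-- nullity is monotone -/
theorem IsRank.null_mono (h : IsRank r) {A B : Finset E} (hAB : A ⊆ B) :
    A.card + r B ≤ B.card + r A := by
  have h1 := h.union_le A (B \ A)
  rw [Finset.union_sdiff_of_subset hAB] at h1
  have h2 := h.le_card (B \ A)
  have h3 := Finset.card_sdiff_add_card_eq_card hAB
  omega

/-- if adding each single element does not change the rank, nor does adding all -/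
theorem IsRank.closure (h : IsRank r) {A : Finset E} (C : Finset E)
    (hC : ∀ x ∈ C, r (insert x A) = r A) : r (A ∪ C) = r A := by
  induction C using Finset.induction_on with
  | empty => simp
  | insert a C ha ih =>
    have h1 := ih (fun x hx => hC x (by simp [hx]))
    have h2 := h.submod (A ∪ C) (insert a A)
    have h3 : A ∪ C ∪ insert a A = A ∪ insert a C := by
      ext x; simp only [mem_union, mem_insert]; tauto
    have h4 : r A ≤ r ((A ∪ C) ∩ insert a A) := h.mono _ _ (by
      intro x hx; simp [hx])
    have h5 := hC a (by simp)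
    have h6 : r A ≤ r (A ∪ insert a C) := h.mono _ _ Finset.subset_union_left
    rw [h3] at h2
    omega

/-- every set contains an independent set of the same rank -/
theorem IsRank.exists_indep (h : IsRank r) (A : Finset E) :
    ∃ B ⊆ A, r B = r A ∧ B.card = r A := by
  -- a maximal independent subset
  obtain ⟨B, hB⟩ := Finset.exists_max_image (A.powerset.filter (fun B => r B = B.card))
    (fun B => B.card) ⟨∅, by simp [h.empty]⟩
  obtain ⟨hB1, hB2⟩ := hB
  rw [mem_filter, mem_powerset] at hB1
  obtain ⟨hBA, hBr⟩ := hB1
  have key : r (B ∪ A) = r B := by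
    apply h.closure
    intro x hx
    by_contra hne
    have h1 : r B ≤ r (insert x B) := h.mono _ _ (Finset.subset_insert _ _)
    have h2 : r (insert x B) ≤ (insert x B).card := h.le_card _
    have hxB : x ∉ B := by
      intro hxB
      rw [Finset.insert_eq_self.2 hxB] at hne
      exact hne rfl
    rw [Finset.card_insert_of_notMem hxB] at h2
    have h3 : r (insert x B) = (insert x B).card := by
      rw [Finset.card_insert_of_notMem hxB]; omega
    have h4 := hB2 (insert x B) (by
      rw [mem_filter, mem_powerset]
      exact ⟨Finset.insert_subset hx hBA, h3⟩)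
    rw [Finset.card_insert_of_notMem hxB] at h4
    omega
  rw [Finset.union_eq_right.2 hBA] at key
  exact ⟨B, hBA, key.symm, by rw [← hBr, key]⟩

end basics

section lower

variable {E : Type*} [DecidableEq E] [Fintype E] {r : Finset E → ℕ}

/-- bases -/
def IsBase (r : Finset E → ℕ) (B : Finset E) : Prop := r B = r univ ∧ B.card = r univ

theorem exists_base (h : IsRank r) {S : Finset E} (hS : r S = r univ) : ∃ B ⊆ S, IsBase r B := by
  obtain ⟨B, h1, h2, h3⟩ := h.exists_indep S
  exact ⟨B, h1, by rw [h2, hS], by rw [h3, hS]⟩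

open Classical in
/-- the nullity contribution -/
noncomputable def g (r : Finset E → ℕ) (S T : Finset E) : ℕ :=
  ((S.powerset ×ˢ T.powerset).filter (fun p => r p.1 = r (p.1 ∪ p.2) ∧ r p.2 = r (p.1 ∪ p.2))).sup
    (fun p => p.1.card + p.2.card - 2 * r (p.1 ∪ p.2))

theorem g_le_of (r : Finset E → ℕ) (S T : Finset E) (m : ℕ)
    (h : ∀ A ⊆ S, ∀ B ⊆ T, r A = r (A ∪ B) → r B = r (A ∪ B) →
      A.card + B.card - 2 * r (A ∪ B) ≤ m) : g r S T ≤ m := by
  classical
  unfold g
  apply Finset.sup_le
  rintro ⟨A, B⟩ hp
  simp only [mem_filter, mem_product, mem_powerset] at hp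
  exact h A hp.1.1 B hp.1.2 hp.2.1 hp.2.2

theorem le_g (r : Finset E → ℕ) {S T A B : Finset E} (hA : A ⊆ S) (hB : B ⊆ T)
    (h1 : r A = r (A ∪ B)) (h2 : r B = r (A ∪ B)) :
    A.card + B.card - 2 * r (A ∪ B) ≤ g r S T := by
  classical
  unfold g
  exact Finset.le_sup (f := fun p : Finset E × Finset E => p.1.card + p.2.card - 2 * r (p.1 ∪ p.2))
    (b := (A, B)) (by simp only [mem_filter, mem_product, mem_powerset]; exact ⟨⟨hA, hB⟩, h1, h2⟩)

theorem g_mono (r : Finset E → ℕ) {S T S' T' : Finset E} (hS : S ⊆ S') (hT : T ⊆ T') :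
    g r S T ≤ g r S' T' :=
  g_le_of r S T _ fun A hA B hB h1 h2 => le_g r (hA.trans hS) (hB.trans hT) h1 h2

theorem g_symm_le (r : Finset E → ℕ) (S T : Finset E) : g r S T ≤ g r T S := by
  apply g_le_of
  intro A hA B hB h1 h2
  have h3 : A ∪ B = B ∪ A := Finset.union_comm A B
  rw [h3] at h1 h2 ⊢
  rw [add_comm A.card]
  exact le_g r hB hA h2 h1

theorem g_symm (r : Finset E → ℕ) (S T : Finset E) : g r S T = g r T S :=
  le_antisymm (g_symm_le r S T) (g_symm_le r T S)

/-- the weight of a pair of sets -/
noncomputable def w (r : Finset E → ℕ) (S T : Finset E) : ℕ := g r S T + r S + r T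

theorem w_symm (r : Finset E → ℕ) (S T : Finset E) : w r S T = w r T S := by
  unfold w; rw [g_symm]; omega

/-- if the two closures agree, the weight is the total size -/
theorem w_eq_of (h : IsRank r) {S T : Finset E} (h1 : r S = r (S ∪ T)) (h2 : r T = r (S ∪ T)) :
    w r S T = S.card + T.card := by
  unfold w
  have h3 : g r S T = S.card + T.card - 2 * r (S ∪ T) := by
    apply le_antisymm
    · apply g_le_of
      intro A hA B hB e1 e2
      have n1 := h.null_mono hA
      have n2 := h.null_mono hB
      omega
    · exact le_g r (Finset.Subset.refl _) (Finset.Subset.refl _) h1 h2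
  have h4 := h.le_card S
  have h5 := h.le_card T
  omega

theorem w_pos (h : IsRank r) {S T : Finset E} (hne : S.Nonempty ∨ T.Nonempty) : 1 ≤ w r S T := by
  by_cases h0 : r S + r T = 0
  · have h1 := h.union_le S T
    have h2 : w r S T = S.card + T.card := w_eq_of h (by omega) (by omega)
    rw [h2]
    rcases hne with h3 | h3
    · have := h3.card_pos; omega
    · have := h3.card_pos; omega
  · unfold w; omega

/-- the closure -/
def cl (r : Finset E → ℕ) (S : Finset E) : Finset E := univ.filter (fun x => r (insert x S) = r S)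

theorem subset_cl (S : Finset E) : S ⊆ cl r S := by
  intro x hx
  simp [cl, Finset.insert_eq_self.2 hx]

theorem r_cl (h : IsRank r) (S : Finset E) : r (cl r S) = r S := by
  have h1 : r (S ∪ cl r S) = r S := h.closure _ (fun x hx => by
    simpa [cl] using hx)
  rwa [Finset.union_eq_right.2 (subset_cl S)] at h1

theorem cl_eq_of (h : IsRank r) {S S' : Finset E} (hS : S ⊆ S') (hr : r S = r S') :
    cl r S = cl r S' := by
  have h0 : r (S ∪ S') = r S := by rw [Finset.union_eq_right.2 hS, hr]
  ext x
  simp only [cl, mem_filter, mem_univ, true_and]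
  have h1 := h.union_eq h0 {x}
  have e1 : S ∪ S' ∪ {x} = insert x S' := by
    rw [Finset.union_eq_right.2 hS, Finset.union_comm, Finset.singleton_union]
  have e2 : S ∪ {x} = insert x S := by rw [Finset.union_comm, Finset.singleton_union]
  rw [e1, e2] at h1
  rw [h1, hr]

theorem r_union_of_cl (h : IsRank r) {S T : Finset E} (hcl : cl r S = cl r T) :
    r S = r (S ∪ T) ∧ r T = r (S ∪ T) := by
  have h1 : S ∪ T ⊆ cl r S := Finset.union_subset (subset_cl S) (by rw [hcl]; exact subset_cl T)
  have h2 : r (S ∪ T) ≤ r S := by
    have := h.mono _ _ h1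
    rwa [r_cl h] at this
  have h3 : r (S ∪ T) ≤ r T := by
    have := h.mono _ _ h1
    rwa [hcl, r_cl h] at this
  have h4 := h.mono S (S ∪ T) Finset.subset_union_left
  have h5 := h.mono T (S ∪ T) Finset.subset_union_right
  omega

/-- positive part -/
def ps (X : E → SignType) : Finset E := univ.filter (fun x => X x = 1)
/-- negative part -/
def ng (X : E → SignType) : Finset E := univ.filter (fun x => X x = -1)

theorem ps_neg (X : E → SignType) : ps (-X) = ng X := by
  ext x
  simp only [ps, ng, mem_filter, mem_univ, true_and, Pi.neg_apply]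
  generalize X x = a
  revert a; decide

theorem ng_neg (X : E → SignType) : ng (-X) = ps X := by
  ext x
  simp only [ps, ng, mem_filter, mem_univ, true_and, Pi.neg_apply]
  generalize X x = a
  revert a; decide

theorem ps_mono {X Y : E → SignType} (h : Le X Y) : ps X ⊆ ps Y := by
  intro x hx
  simp only [ps, mem_filter, mem_univ, true_and] at hx ⊢
  rw [h x (by rw [hx]; decide), hx]

theorem ng_mono {X Y : E → SignType} (h : Le X Y) : ng X ⊆ ng Y := by
  intro x hx
  simp only [ng, mem_filter, mem_univ, true_and] at hx ⊢
  rw [h x (by rw [hx]; decide), hx]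

theorem ps_ng_disj (X : E → SignType) : Disjoint (ps X) (ng X) := by
  rw [Finset.disjoint_left]
  intro x h1 h2
  simp only [ps, ng, mem_filter, mem_univ, true_and] at h1 h2
  rw [h1] at h2
  revert h2; decide

theorem ne_nonempty {X : E → SignType} (h : X ≠ 0) : (ps X).Nonempty ∨ (ng X).Nonempty := by
  by_contra hcon
  push Not at hcon
  apply h
  funext x
  have h1 : x ∉ ps X := by rw [hcon.1]; simp
  have h2 : x ∉ ng X := by rw [hcon.2]; simp
  simp only [ps, ng, mem_filter, mem_univ, true_and] at h1 h2
  rcases sg6 (X x) with h3 | h3 | h3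
  · rw [h3]; rfl
  · exact absurd h3 h1
  · exact absurd h3 h2

theorem ext_of {X Y : E → SignType} (h1 : ps X = ps Y) (h2 : ng X = ng Y) : X = Y := by
  funext x
  have a1 : x ∈ ps X ↔ x ∈ ps Y := by rw [h1]
  have a2 : x ∈ ng X ↔ x ∈ ng Y := by rw [h2]
  simp only [ps, ng, mem_filter, mem_univ, true_and] at a1 a2
  revert a1 a2
  generalize X x = a
  generalize Y x = b
  revert a b; decide

open Classical in
/-- largest colour (plus one) of a base inside `S` -/
noncomputable def mx (r : Finset E → ℕ) (c : Finset E → ℕ) (S : Finset E) : ℕ :=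
  (S.powerset.filter (fun B => IsBase r B)).sup (fun B => c B + 1)

theorem mx_le {c : Finset E → ℕ} {t : ℕ} (hc : ∀ B, IsBase r B → c B < t) (S : Finset E) :
    mx r c S ≤ t := by
  classical
  unfold mx
  apply Finset.sup_le
  intro B hB
  simp only [mem_filter] at hB
  exact hc B hB.2

theorem mx_pos {c : Finset E → ℕ} (h : IsRank r) {S : Finset E} (hS : r S = r univ) :
    1 ≤ mx r c S := by
  classical
  obtain ⟨B, hB, hB2⟩ := exists_base h hS
  unfold mx
  exact le_trans (Nat.le_add_left 1 (c B)) (Finset.le_sup (f := fun B => c B + 1)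
    (by simp only [mem_filter, mem_powerset]; exact ⟨hB, hB2⟩))

theorem exists_of_mx {c : Finset E → ℕ} {S : Finset E} (hS : 1 ≤ mx r c S) :
    ∃ B ⊆ S, IsBase r B ∧ c B + 1 = mx r c S := by
  classical
  by_cases hne : (S.powerset.filter (fun B => IsBase r B)).Nonempty
  · obtain ⟨B, hB, hB2⟩ := Finset.exists_mem_eq_sup _ hne (fun B => c B + 1)
    simp only [mem_filter, mem_powerset] at hB
    exact ⟨B, hB.1, hB.2, hB2.symm⟩
  · rw [Finset.not_nonempty_iff_eq_empty] at hne
    unfold mx at hS
    rw [hne] at hS
    simp at hS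

/-- **Kneser-type lower bound for matroids.**  If the bases are coloured with `t` colours so that
disjoint bases have different colours, then some non-spanning set `X` satisfies
`|E| - |X| - 2 (r(E) - r(X)) + 2 ≤ t`. -/
theorem kneser_lower (h : IsRank r) (t : ℕ) (c : Finset E → ℕ)
    (hc : ∀ B, IsBase r B → c B < t)
    (hp : ∀ B B', IsBase r B → IsBase r B' → Disjoint B B' → c B ≠ c B') :
    ∃ X : Finset E, r X < r univ ∧
      Fintype.card E + 2 * r X + 2 ≤ t + X.card + 2 * r univ := by
  classical
  by_contra hcon
  push Not at hcon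
  -- positive rank
  have hR : 0 < r univ := by
    by_contra h0
    have h0' : r univ = 0 := by omega
    have hb : IsBase r ∅ := ⟨by rw [h.empty, h0'], by simp [h0']⟩
    exact hp ∅ ∅ hb hb (by simp) rfl
  have hE : 0 < Fintype.card E := by
    have := h.le_card univ
    rw [Finset.card_univ] at this
    omega
  have h0 := hcon ∅ (by rw [h.empty]; exact hR)
  rw [h.empty, Finset.card_empty] at h0
  obtain ⟨a, ha⟩ : ∃ a, Fintype.card E = a + t + 1 := ⟨Fintype.card E - t - 1, by omega⟩
  have hwa : ∀ S T : Finset E, Disjoint S T → r S < r univ → r T < r univ → w r S T ≤ a := by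
    intro S T hST hS hT
    have h1 : g r S T + (r S + r T) ≤ a := by
      have h2 : g r S T ≤ a - (r S + r T) := by
        apply g_le_of
        intro A hA B hB e1 e2
        have hAS := h.mono _ _ hA
        have h3 := hcon (A ∪ B) (by omega)
        have h4 : (A ∪ B).card = A.card + B.card :=
          Finset.card_union_of_disjoint (Finset.disjoint_of_subset_left hA
            (Finset.disjoint_of_subset_right hB hST))
        omega
      have h5 : r S + r T ≤ a := by omega
      omega
    unfold w; omega
  -- an injective encoding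
  set en : Finset E → ℕ := fun A => (Fintype.equivFin (Finset E) A : ℕ) with hen
  have hen_inj : ∀ A B, en A = en B → A = B := by
    intro A B hAB
    exact (Fintype.equivFin (Finset E)).injective (Fin.ext hAB)
  let spn : (E → SignType) → Prop := fun X => r (ps X) = r univ ∨ r (ng X) = r univ
  let idx : (E → SignType) → ℕ := fun X =>
    if spn X then a + max (mx r c (ps X)) (mx r c (ng X)) else w r (ps X) (ng X)
  let s : (E → SignType) → ZMod 2 := fun X =>
    if spn X then (if mx r c (ng X) < mx r c (ps X) then 0 else 1)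
    else if cl r (ps X) = cl r (ng X) then (if en (ps X) < en (ng X) then 0 else 1)
    else (if en (cl r (ps X)) < en (cl r (ng X)) then 0 else 1)
  have hspn : ∀ X, spn (-X) ↔ spn X := by
    intro X
    simp only [spn, ps_neg, ng_neg]
    tauto
  have hle : ∀ A : Finset E, r A ≤ r univ := fun A => h.mono _ _ (Finset.subset_univ _)
  have hmx : ∀ X Y : Finset E, Disjoint X Y → mx r c X = mx r c Y → mx r c X = 0 := by
    intro X Y hXY he
    by_contra hne
    obtain ⟨B, hB1, hB2, hB3⟩ := exists_of_mx (r := r) (c := c) (S := X) (by omega)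
    obtain ⟨B', hB1', hB2', hB3'⟩ := exists_of_mx (r := r) (c := c) (S := Y) (by omega)
    exact hp B B' hB2 hB2' (Finset.disjoint_of_subset_left hB1
      (Finset.disjoint_of_subset_right hB1' hXY)) (by omega)
  have hpsng : ∀ X : E → SignType, X ≠ 0 → ps X ≠ ng X := by
    intro X hX he
    have hd := ps_ng_disj X
    rcases ne_nonempty hX with ⟨x, hx⟩ | ⟨x, hx⟩
    · exact Finset.disjoint_left.1 hd hx (he ▸ hx)
    · exact Finset.disjoint_left.1 hd (he ▸ hx) hx
  have flip : ∀ (p q : ℕ), p ≠ q → (if q < p then (0 : ZMod 2) else 1) = 1 + (if p < q then 0 else 1) := by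
    intro p q hpq
    rcases lt_or_gt_of_ne hpq with h1 | h1
    · rw [if_neg (by omega), if_pos h1]; rfl
    · rw [if_pos h1, if_neg (by omega)]; decide
  have hfin := tucker_univ hE idx s ?_ ?_ ?_ (Finset.Icc 1 (a + t)) ?_
  · rw [Nat.card_Icc] at hfin
    omega
  · -- antipodal index
    intro X hX
    simp only [idx, ps_neg, ng_neg]
    by_cases h1 : spn X
    · rw [if_pos h1, if_pos ((hspn X).2 h1), max_comm]
    · rw [if_neg h1, if_neg (fun h2 => h1 ((hspn X).1 h2)), w_symm]
  · -- antipodal sign
    intro X hX
    simp only [s, ps_neg, ng_neg]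
    by_cases h1 : spn X
    · rw [if_pos h1, if_pos ((hspn X).2 h1)]
      apply flip
      intro he
      have h2 := hmx _ _ (ps_ng_disj X).symm he
      rcases h1 with h3 | h3
      · have := mx_pos (c := c) h h3; omega
      · have := mx_pos (c := c) h h3; omega
    · rw [if_neg h1, if_neg (fun h2 => h1 ((hspn X).1 h2))]
      by_cases h2 : cl r (ps X) = cl r (ng X)
      · rw [if_pos h2, if_pos h2.symm]
        apply flip
        intro he
        exact hpsng X hX (hen_inj _ _ he)
      · rw [if_neg h2, if_neg (fun h3 => h2 h3.symm)]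
        apply flip
        intro he
        exact h2 (hen_inj _ _ he)
  · -- comparable pairs
    intro X Y hX hY hXY hidx
    have hP := ps_mono hXY
    have hN := ng_mono hXY
    simp only [idx] at hidx
    simp only [s]
    by_cases h1 : spn X
    · have h2 : spn Y := by
        rcases h1 with h3 | h3
        · left; have := h.mono _ _ hP; have := hle (ps Y); omega
        · right; have := h.mono _ _ hN; have := hle (ng Y); omega
      rw [if_pos h1, if_pos h2] at hidx
      rw [if_pos h1, if_pos h2]
      have e1 : max (mx r c (ps X)) (mx r c (ng X)) = max (mx r c (ps Y)) (mx r c (ng Y)) := by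
        omega
      have dX : Disjoint (ps X) (ng Y) := Finset.disjoint_of_subset_left hP (ps_ng_disj Y)
      have dY : Disjoint (ng X) (ps Y) := Finset.disjoint_of_subset_left hN (ps_ng_disj Y).symm
      have p1 : 1 ≤ max (mx r c (ps X)) (mx r c (ng X)) := by
        rcases h1 with h3 | h3
        · have := mx_pos (c := c) h h3; omega
        · have := mx_pos (c := c) h h3; omega
      have nX : mx r c (ps X) ≠ mx r c (ng X) := by
        intro he
        have := hmx _ _ (ps_ng_disj X) he
        omega
      have nY : mx r c (ps Y) ≠ mx r c (ng Y) := by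
        intro he
        have := hmx _ _ (ps_ng_disj Y) he
        omega
      rcases lt_or_gt_of_ne nX with hx | hx <;> rcases lt_or_gt_of_ne nY with hy | hy
      · rw [if_neg (by omega), if_neg (by omega)]
      · exfalso
        have := hmx _ _ dY (by omega)
        omega
      · exfalso
        have := hmx _ _ dX (by omega)
        omega
      · rw [if_pos hx, if_pos hy]
    · rw [if_neg h1] at hidx
      have n1 : r (ps X) < r univ ∧ r (ng X) < r univ := by
        simp only [spn, not_or] at h1
        have := hle (ps X)
        have := hle (ng X)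
        omega
      have hwX := hwa _ _ (ps_ng_disj X) n1.1 n1.2
      by_cases h2 : spn Y
      · exfalso
        rw [if_pos h2] at hidx
        have p1 : 1 ≤ max (mx r c (ps Y)) (mx r c (ng Y)) := by
          rcases h2 with h3 | h3
          · have := mx_pos (c := c) h h3; omega
          · have := mx_pos (c := c) h h3; omega
        omega
      · rw [if_neg h2] at hidx
        rw [if_neg h1, if_neg h2]
        have hg := g_mono r hP hN
        have r1 := h.mono _ _ hP
        have r2 := h.mono _ _ hN
        have hw1 : w r (ps X) (ng X) = g r (ps X) (ng X) + r (ps X) + r (ng X) := rfl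
        have hw2 : w r (ps Y) (ng Y) = g r (ps Y) (ng Y) + r (ps Y) + r (ng Y) := rfl
        have c1 := cl_eq_of h hP (by omega)
        have c2 := cl_eq_of h hN (by omega)
        rw [← c1, ← c2]
        by_cases h3 : cl r (ps X) = cl r (ng X)
        · rw [if_pos h3, if_pos h3]
          obtain ⟨u1, u2⟩ := r_union_of_cl h h3
          obtain ⟨v1, v2⟩ := r_union_of_cl h (S := ps Y) (T := ng Y) (by rw [← c1, ← c2, h3])
          rw [w_eq_of h u1 u2, w_eq_of h v1 v2] at hidx
          have k1 := Finset.card_le_card hP
          have k2 := Finset.card_le_card hN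
          have e1 : ps X = ps Y := Finset.eq_of_subset_of_card_le hP (by omega)
          have e2 : ng X = ng Y := Finset.eq_of_subset_of_card_le hN (by omega)
          rw [e1, e2]
        · rw [if_neg h3, if_neg h3]
  · -- range
    intro X hX
    simp only [idx, Finset.mem_Icc]
    by_cases h1 : spn X
    · rw [if_pos h1]
      have p1 : 1 ≤ max (mx r c (ps X)) (mx r c (ng X)) := by
        rcases h1 with h3 | h3
        · have := mx_pos (c := c) h h3; omega
        · have := mx_pos (c := c) h h3; omega
      have m1 := mx_le (r := r) hc (ps X)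
      have m2 := mx_le (r := r) hc (ng X)
      omega
    · rw [if_neg h1]
      have n1 : r (ps X) < r univ ∧ r (ng X) < r univ := by
        simp only [spn, not_or] at h1
        have := hle (ps X)
        have := hle (ng X)
        omega
      have hwX := hwa _ _ (ps_ng_disj X) n1.1 n1.2
      have := w_pos h (ne_nonempty hX)
      omega

end lower

end Pool.Agent.R489.Bor
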