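import Mathlib
import Pool.Agent.R489.Bor.Low

set_option autoImplicit false

namespace Pool.Agent.R489.Bor

open Finset

section ext

variable {E : Type*} [DecidableEq E]

/-- an independent subset of `A` extends to a maximal one -/
theorem IsRank.extend {r : Finset E → ℕ} (h : IsRank r) {I A : Finset E} (hIA : I ⊆ A)
    (hI : r I = I.card) :
    ∃ B ⊆ A, I ⊆ B ∧ r B = r A ∧ B.card = r A := by
  obtain ⟨B, hB⟩ := Finset.exists_max_image (A.powerset.filter (fun B => I ⊆ B ∧ r B = B.card))
    (fun B => B.card) ⟨I, by simp [hIA, hI]⟩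
  obtain ⟨hB1, hB2⟩ := hB
  rw [mem_filter, mem_powerset] at hB1
  obtain ⟨hBA, hIB, hBr⟩ := hB1
  have key : r (B ∪ A) = r B := by
    apply h.closure
    intro x hx
    by_contra hne
    have h1 : r B ≤ r (insert x B) := h.mono _ _ (Finset.subset_insert _ _)
    have h2 : r (insert x B) ≤ (insert x B).card := h.le_card _
    have hxB : x ∉ B := by
      intro hxB
      rw [Finset.insert_eq_self.2 hxB] at hne
      exact hne rfl
    rw [Finset.card_insert_of_notMem hxB] at h2
    have h3 : r (insert x B) = (insert x B).card := by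
      rw [Finset.card_insert_of_notMem hxB]; omega
    have h4 := hB2 (insert x B) (by
      rw [mem_filter, mem_powerset]
      exact ⟨Finset.insert_subset hx hBA, hIB.trans (Finset.subset_insert _ _), h3⟩)
    rw [Finset.card_insert_of_notMem hxB] at h4
    omega
  rw [Finset.union_eq_right.2 hBA] at key
  exact ⟨B, hBA, hIB, key.symm, by rw [← hBr, key]⟩

/-- free extension by `n` elements -/
def fr [Fintype E] (r : Finset E → ℕ) (n : ℕ) (A : Finset (E ⊕ Fin n)) : ℕ :=
  min (r univ) (r A.toLeft + A.toRight.card)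

theorem fr_isRank [Fintype E] {r : Finset E → ℕ} (h : IsRank r) (n : ℕ) : IsRank (fr r n) := by
  refine ⟨?_, ?_, ?_⟩
  · intro A B hAB
    unfold fr
    have h1 := h.mono _ _ (toLeft_subset_toLeft hAB)
    have h2 := card_le_card (toRight_subset_toRight hAB)
    omega
  · intro A
    unfold fr
    have h1 := h.le_card A.toLeft
    have h2 := card_toLeft_add_card_toRight (u := A)
    omega
  · intro A B
    unfold fr
    have h1 := h.submod A.toLeft B.toLeft
    have h2 := card_union_add_card_inter A.toRight B.toRight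
    rw [toLeft_union, toLeft_inter, toRight_union, toRight_inter]
    have m1 := h.mono A.toLeft (A.toLeft ∪ B.toLeft) subset_union_left
    have m2 := h.mono B.toLeft (A.toLeft ∪ B.toLeft) subset_union_right
    have m3 := h.mono (A.toLeft ∩ B.toLeft) A.toLeft inter_subset_left
    have m4 := h.mono (A.toLeft ∩ B.toLeft) B.toLeft inter_subset_right
    have c3 := card_le_card (inter_subset_left (s₁ := A.toRight) (s₂ := B.toRight))
    have c4 := card_le_card (inter_subset_right (s₁ := A.toRight) (s₂ := B.toRight))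
    omega

theorem toLeft_univ' {F : Type*} [Fintype E] [Fintype F] [DecidableEq F] :
    (univ : Finset (E ⊕ F)).toLeft = univ := by
  ext x; simp

theorem toRight_univ' {F : Type*} [Fintype E] [Fintype F] [DecidableEq F] :
    (univ : Finset (E ⊕ F)).toRight = univ := by
  ext x; simp

theorem fr_univ [Fintype E] {r : Finset E → ℕ} (n : ℕ) : fr r n univ = r univ := by
  unfold fr
  rw [toLeft_univ']
  omega

/-- the union of two bases -/
theorem union_tight [Fintype E] {r : Finset E → ℕ} (h : IsRank r) (u : ℕ)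
    (hu : ∀ B B', IsBase r B → IsBase r B' → (B ∪ B').card ≤ u) :
    ∃ X : Finset E, Fintype.card E + 2 * r X ≤ u + X.card := by
  by_cases h0 : 2 * r univ ≤ u
  · exact ⟨univ, by rw [card_univ]; omega⟩
  obtain ⟨n, hn⟩ : ∃ n, 2 * r univ = u + n + 1 := ⟨2 * r univ - u - 1, by omega⟩
  have hfr := fr_isRank h n
  have hbase : ∀ B, IsBase (fr r n) B →
      r B.toLeft = B.toLeft.card ∧ B.toLeft.card + B.toRight.card = r univ := by
    intro B hB
    obtain ⟨h1, h2⟩ := hB
    rw [fr_univ] at h1 h2
    unfold fr at h1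
    have h3 := card_toLeft_add_card_toRight (u := B)
    have h4 := h.le_card B.toLeft
    omega
  obtain ⟨X, hX1, hX2⟩ := kneser_lower hfr 1 (fun _ => 0) (fun _ _ => Nat.one_pos) (by
    intro B B' hB hB' hd
    exfalso
    obtain ⟨a1, a2⟩ := hbase B hB
    obtain ⟨b1, b2⟩ := hbase B' hB'
    obtain ⟨C, -, hC1, hC2, hC3⟩ := h.extend (subset_univ B.toLeft) a1
    obtain ⟨C', -, hC1', hC2', hC3'⟩ := h.extend (subset_univ B'.toLeft) b1
    have h1 := hu C C' ⟨hC2, hC3⟩ ⟨hC2', hC3'⟩
    have h2 : (B.toLeft ∪ B'.toLeft).card ≤ (C ∪ C').card :=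
      card_le_card (union_subset_union hC1 hC1')
    have dl : Disjoint B.toLeft B'.toLeft := by
      rw [Finset.disjoint_left] at hd ⊢
      intro x hx hx'
      rw [mem_toLeft] at hx hx'
      exact hd hx hx'
    have dr : Disjoint B.toRight B'.toRight := by
      rw [Finset.disjoint_left] at hd ⊢
      intro x hx hx'
      rw [mem_toRight] at hx hx'
      exact hd hx hx'
    rw [card_union_of_disjoint dl] at h2
    have h3 : (B.toRight ∪ B'.toRight).card ≤ n := by
      have := card_le_univ (B.toRight ∪ B'.toRight)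
      rwa [Fintype.card_fin] at this
    rw [card_union_of_disjoint dr] at h3
    omega)
  rw [fr_univ] at hX1 hX2
  rw [Fintype.card_sum, Fintype.card_fin] at hX2
  refine ⟨X.toLeft, ?_⟩
  have h3 := card_toLeft_add_card_toRight (u := X)
  unfold fr at hX1 hX2
  omega

/-- the rank function of `M|Z ⊕ (M/Z)*` -/
def rr [Fintype E] (r : Finset E → ℕ) (Z A : Finset E) : ℕ :=
  r (A ∩ Z) + ((A \ Z).card + r (A \ Z)ᶜ - r univ)

theorem IsRank.univ_le [Fintype E] {r : Finset E → ℕ} (h : IsRank r) (P : Finset E) :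
    r univ ≤ P.card + r Pᶜ := by
  have h1 := h.union_le P Pᶜ
  rw [union_compl] at h1
  have h2 := h.le_card P
  omega

theorem rr_isRank [Fintype E] {r : Finset E → ℕ} (h : IsRank r) (Z : Finset E) :
    IsRank (rr r Z) := by
  refine ⟨?_, ?_, ?_⟩
  · intro A B hAB
    unfold rr
    have h1 := h.mono (A ∩ Z) (B ∩ Z) (inter_subset_inter_right hAB)
    have h2 : A \ Z ⊆ B \ Z := sdiff_subset_sdiff hAB (Subset.refl _)
    generalize A \ Z = P at *
    generalize B \ Z = Q at *
    have h3 : Pᶜ = Qᶜ ∪ (Q \ P) := by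
      ext x
      simp only [mem_compl, mem_union, mem_sdiff]
      have := @h2 x
      tauto
    have h4 := h.union_le Qᶜ (Q \ P)
    rw [← h3] at h4
    have h5 := h.le_card (Q \ P)
    have h6 := card_sdiff_add_card_eq_card h2
    omega
  · intro A
    unfold rr
    have h1 := h.le_card (A ∩ Z)
    have h2 := h.mono (A \ Z)ᶜ univ (subset_univ _)
    have h3 := card_inter_add_card_sdiff A Z
    omega
  · intro A B
    unfold rr
    have e1 : (A ∪ B) ∩ Z = (A ∩ Z) ∪ (B ∩ Z) := union_inter_distrib_right _ _ _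
    have e2 : (A ∩ B) ∩ Z = (A ∩ Z) ∩ (B ∩ Z) := by
      ext x; simp only [mem_inter]; tauto
    have e3 : (A ∪ B) \ Z = (A \ Z) ∪ (B \ Z) := union_sdiff_distrib _ _ _
    have e4 : (A ∩ B) \ Z = (A \ Z) ∩ (B \ Z) := by
      ext x; simp only [mem_inter, mem_sdiff]; tauto
    rw [e1, e2, e3, e4]
    have h1 := h.submod (A ∩ Z) (B ∩ Z)
    generalize A \ Z = P at *
    generalize B \ Z = Q at *
    have h2 := h.submod Pᶜ Qᶜ
    have e5 : Pᶜ ∪ Qᶜ = (P ∩ Q)ᶜ := by rw [compl_inter]
    have e6 : Pᶜ ∩ Qᶜ = (P ∪ Q)ᶜ := by rw [compl_union]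
    rw [e5, e6] at h2
    have h3 := card_union_add_card_inter P Q
    have h4 := h.univ_le P
    have h5 := h.univ_le Q
    have h6 := h.univ_le (P ∩ Q)
    have h7 := h.univ_le (P ∪ Q)
    omega

/-- flip outside `Z` -/
def fl [Fintype E] (Z A : Finset E) : Finset E := (A ∩ Z) ∪ (Zᶜ \ A)

theorem fl_fl [Fintype E] (Z A : Finset E) : fl Z (fl Z A) = A := by
  ext x
  simp only [fl, mem_union, mem_inter, mem_sdiff, mem_compl]
  tauto

theorem fl_inter [Fintype E] (Z A : Finset E) : fl Z A ∩ Z = A ∩ Z := by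
  ext x
  simp only [fl, mem_union, mem_inter, mem_sdiff, mem_compl]
  tauto

theorem fl_sdiff [Fintype E] (Z A : Finset E) : fl Z A \ Z = Zᶜ \ A := by
  ext x
  simp only [fl, mem_union, mem_inter, mem_sdiff, mem_compl]
  tauto

theorem card_fl_union [Fintype E] (Z B B' : Finset E) :
    (B ∪ B').card + (fl Z B ∩ fl Z B').card = (B ∩ Z).card + (B' ∩ Z).card + Zᶜ.card := by
  have key : ∀ S : Finset E, S.card = ∑ x, if x ∈ S then 1 else 0 := by
    intro S; simp
  rw [key (B ∪ B'), key (fl Z B ∩ fl Z B'), key (B ∩ Z), key (B' ∩ Z), key Zᶜ,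
    ← sum_add_distrib, ← sum_add_distrib, ← sum_add_distrib]
  apply sum_congr rfl
  intro x _
  simp only [fl, mem_union, mem_inter, mem_sdiff, mem_compl]
  by_cases h1 : x ∈ B <;> by_cases h2 : x ∈ B' <;> by_cases h3 : x ∈ Z <;> simp [h1, h2, h3]

theorem rr_univ [Fintype E] (r : Finset E → ℕ) (Z : Finset E) :
    rr r Z univ = r Z + (Zᶜ.card + r Z - r univ) := by
  unfold rr
  have e1 : (univ : Finset E) ∩ Z = Z := univ_inter Z
  have e2 : (univ : Finset E) \ Z = Zᶜ := by ext x; simp
  rw [e1, e2, compl_compl]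

theorem rr_fl [Fintype E] (r : Finset E → ℕ) (Z B : Finset E) :
    rr r Z (fl Z B) = r (B ∩ Z) + ((Zᶜ \ B).card + r (Zᶜ \ B)ᶜ - r univ) := by
  unfold rr
  rw [fl_inter, fl_sdiff]

theorem card_fl [Fintype E] (Z B : Finset E) :
    (fl Z B).card = (B ∩ Z).card + (Zᶜ \ B).card := by
  have h3 := card_inter_add_card_sdiff (fl Z B) Z
  rw [fl_inter, fl_sdiff] at h3
  exact h3.symm

theorem card_parts [Fintype E] (Z B : Finset E) :
    B.card + (Zᶜ \ B).card = (B ∩ Z).card + Zᶜ.card := by
  have key : ∀ S : Finset E, S.card = ∑ x, if x ∈ S then 1 else 0 := by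
    intro S; simp
  rw [key B, key (Zᶜ \ B), key (B ∩ Z), key Zᶜ,
    ← sum_add_distrib, ← sum_add_distrib]
  apply sum_congr rfl
  intro x _
  simp only [mem_inter, mem_sdiff, mem_compl]
  by_cases h1 : x ∈ B <;> by_cases h3 : x ∈ Z <;> simp [h1, h3]

theorem rr_of_base [Fintype E] {r : Finset E → ℕ} (h : IsRank r) {Z B : Finset E}
    (hB : IsBase r B) (hBZ : (B ∩ Z).card = r Z) : IsBase (rr r Z) (fl Z B) := by
  obtain ⟨h1, h2⟩ := hB
  have h3 := card_parts Z B
  have h4 : r (Zᶜ \ B)ᶜ = r univ := by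
    apply le_antisymm (h.mono _ _ (subset_univ _))
    rw [← h1]
    apply h.mono
    intro x hx
    simp only [mem_compl, mem_sdiff]
    tauto
  -- `B ∩ Z` is independent
  have h5 : r (B ∩ Z) = (B ∩ Z).card := by
    have n1 := h.null_mono (inter_subset_left : B ∩ Z ⊆ B)
    have n2 := h.le_card (B ∩ Z)
    omega
  unfold IsBase
  rw [rr_fl, rr_univ, card_fl, h4, h5, hBZ]
  have h6 := h.univ_le Z
  have h7 := h.univ_le Zᶜ
  rw [compl_compl] at h7
  omega

theorem base_of_rr [Fintype E] {r : Finset E → ℕ} (h : IsRank r) {Z D : Finset E}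
    (hD : IsBase (rr r Z) D) : IsBase r (fl Z D) ∧ (fl Z D ∩ Z).card = r Z := by
  set B := fl Z D with hBdef
  have hDB : D = fl Z B := by rw [hBdef, fl_fl]
  rw [hDB] at hD
  clear_value B
  unfold IsBase at hD
  rw [rr_fl, rr_univ, card_fl] at hD
  obtain ⟨h1, h2⟩ := hD
  have h3 := card_parts Z B
  have h4 := h.le_card (B ∩ Z)
  have h5 := h.mono (Zᶜ \ B)ᶜ univ (subset_univ _)
  have h6 := h.univ_le Zᶜ
  rw [compl_compl] at h6
  have h7 := h.univ_le (Zᶜ \ B)
  have h8 := h.mono (B ∩ Z) Z inter_subset_right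
  have h9 : r (B ∩ Z) = (B ∩ Z).card := by omega
  have h10 : r (Zᶜ \ B)ᶜ = r univ := by omega
  -- decomposition of the complement
  have e1 : (Zᶜ \ B)ᶜ = Z ∪ (B \ Z) := by
    ext x
    simp only [mem_compl, mem_sdiff, mem_union]
    tauto
  have h11 := h.union_le Z (B \ Z)
  rw [← e1] at h11
  have h12 := h.le_card (B \ Z)
  have h13 := card_inter_add_card_sdiff B Z
  have h14 : (B ∩ Z).card = r Z := by omega
  refine ⟨⟨?_, ?_⟩, h14⟩
  · -- rank of `B`
    have e2 : r ((B ∩ Z) ∪ Z) = r (B ∩ Z) := by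
      rw [union_eq_right.2 inter_subset_right]; omega
    have e3 := h.union_eq e2 (B \ Z)
    have e4 : B ∩ Z ∪ Z ∪ B \ Z = (Zᶜ \ B)ᶜ := by
      ext x
      simp only [mem_compl, mem_sdiff, mem_union, mem_inter]
      tauto
    have e5 : B ∩ Z ∪ B \ Z = B := by
      ext x
      simp only [mem_sdiff, mem_union, mem_inter]
      tauto
    rw [e4, e5] at e3
    omega
  · omega

/-- colouring with `t` colours separating pairs with union of size `u` -/
def Good [Fintype E] (r : Finset E → ℕ) (u t : ℕ) : Prop :=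
  ∃ c : Finset E → ℕ, (∀ B, IsBase r B → c B < t) ∧
    ∀ B B', IsBase r B → IsBase r B' → (B ∪ B').card = u → c B ≠ c B'

/-- upper bound for the Kneser-type colouring -/
theorem kneser_upper [Fintype E] {r : Finset E → ℕ} (h : IsRank r) (t : ℕ)
    (hdis : ∃ B B', IsBase r B ∧ IsBase r B' ∧ Disjoint B B')
    (X : Finset E) (hX : r X < r univ)
    (ht : Fintype.card E + 2 * r X + 2 ≤ t + X.card + 2 * r univ) :
    ∃ c : Finset E → ℕ, (∀ B, IsBase r B → c B < t) ∧
      ∀ B B', IsBase r B → IsBase r B' → Disjoint B B' → c B ≠ c B' := by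
  classical
  -- each base has many elements outside `X`
  have hb : ∀ B, IsBase r B → r univ ≤ (B \ X).card + r X := by
    intro B hB
    have h1 := h.union_le X (B \ X)
    have h2 : B ⊆ X ∪ (B \ X) := by
      intro x hx
      simp only [mem_union, mem_sdiff]
      tauto
    have h3 := h.mono _ _ h2
    have h4 := h.le_card (B \ X)
    have h5 := hB.1
    omega
  have hXc : Xᶜ.card + X.card = Fintype.card E := by
    rw [add_comm]; exact card_add_card_compl X
  have hd : ∀ B B', IsBase r B → IsBase r B' → Disjoint B B' →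
      (B \ X).card + (B' \ X).card ≤ Xᶜ.card := by
    intro B B' _ _ hBB
    rw [← card_union_of_disjoint (disjoint_of_subset_left sdiff_subset
      (disjoint_of_subset_right sdiff_subset hBB))]
    apply card_le_card
    intro x
    simp only [mem_union, mem_sdiff, mem_compl]
    tauto
  obtain ⟨B0, B0', hB0, hB0', hB00⟩ := hdis
  have h1 := hd _ _ hB0 hB0' hB00
  have h2 := hb _ hB0
  have h3 := hb _ hB0'
  -- choose `Y`
  obtain ⟨Y, hY1, hY2⟩ := exists_subset_card_eq
    (s := Xᶜ) (n := Xᶜ.card + 2 * r X + 1 - 2 * r univ) (by omega)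
  let q := Y.equivFin
  refine ⟨fun B => if hB : (B ∩ Y).Nonempty then (q ⟨hB.choose, (mem_inter.1 hB.choose_spec).2⟩ : ℕ)
    else Y.card, ?_, ?_⟩
  · intro B hB
    by_cases hBY : (B ∩ Y).Nonempty
    · simp only [hBY, dif_pos]
      have := (q ⟨hBY.choose, (mem_inter.1 hBY.choose_spec).2⟩).2
      omega
    · simp only [hBY, dif_neg, not_false_eq_true]
      omega
  · intro B B' hB hB' hBB he
    by_cases hBY : (B ∩ Y).Nonempty
    · by_cases hBY' : (B' ∩ Y).Nonempty
      · simp only [hBY, hBY', dif_pos] at he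
        have e1 := q.injective (Fin.ext he)
        have e2 : hBY.choose = hBY'.choose := by
          simpa using congrArg Subtype.val e1
        have e3 := (mem_inter.1 hBY.choose_spec).1
        have e4 := (mem_inter.1 hBY'.choose_spec).1
        rw [← e2] at e4
        exact Finset.disjoint_left.1 hBB e3 e4
      · simp only [hBY, hBY', dif_pos, dif_neg, not_false_eq_true] at he
        have := (q ⟨hBY.choose, (mem_inter.1 hBY.choose_spec).2⟩).2
        omega
    · by_cases hBY' : (B' ∩ Y).Nonempty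
      · simp only [hBY, hBY', dif_pos, dif_neg, not_false_eq_true] at he
        have := (q ⟨hBY'.choose, (mem_inter.1 hBY'.choose_spec).2⟩).2
        omega
      · -- both avoid `Y`
        rw [not_nonempty_iff_eq_empty] at hBY hBY'
        have d1 : Disjoint (B \ X) (B' \ X) := disjoint_of_subset_left sdiff_subset
          (disjoint_of_subset_right sdiff_subset hBB)
        have d2 : (B \ X) ∪ (B' \ X) ⊆ Xᶜ \ Y := by
          intro x hx
          have f1 : x ∉ B ∩ Y := by rw [hBY]; simp
          have f2 : x ∉ B' ∩ Y := by rw [hBY']; simp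
          simp only [mem_union, mem_sdiff, mem_compl, mem_inter] at hx f1 f2 ⊢
          tauto
        have d3 := card_le_card d2
        rw [card_union_of_disjoint d1] at d3
        have d4 := card_sdiff_add_card_eq_card hY1
        have d5 := hb _ hB
        have d6 := hb _ hB'
        omega

/-- the pairs of bases with largest union -/
theorem good_of_set [Fintype E] {r : Finset E → ℕ} (h : IsRank r) (u t : ℕ)
    (hu : ∃ B B', IsBase r B ∧ IsBase r B' ∧ (B ∪ B').card = u)
    (Z : Finset E) (hZ : Fintype.card E + 2 * r Z ≤ u + Z.card)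
    (X : Finset E) (hX : rr r Z X < rr r Z univ)
    (ht : Fintype.card E + 2 * rr r Z X + 2 ≤ t + X.card + 2 * rr r Z univ) :
    Good r u t := by
  classical
  have hZc : Zᶜ.card + Z.card = Fintype.card E := by
    rw [add_comm]; exact card_add_card_compl Z
  have hfl : ∀ B B', IsBase r B → IsBase r B' → (B ∪ B').card = u →
      IsBase (rr r Z) (fl Z B) ∧ IsBase (rr r Z) (fl Z B') ∧ Disjoint (fl Z B) (fl Z B') := by
    intro B B' hB hB' hBB
    have h1 := card_fl_union Z B B'
    have i1 : (B ∩ Z).card ≤ r Z := by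
      have n1 := h.null_mono (inter_subset_left : B ∩ Z ⊆ B)
      have n2 := h.mono (B ∩ Z) Z inter_subset_right
      have := hB.1
      have := hB.2
      omega
    have i2 : (B' ∩ Z).card ≤ r Z := by
      have n1 := h.null_mono (inter_subset_left : B' ∩ Z ⊆ B')
      have n2 := h.mono (B' ∩ Z) Z inter_subset_right
      have := hB'.1
      have := hB'.2
      omega
    refine ⟨rr_of_base h hB (by omega), rr_of_base h hB' (by omega), ?_⟩
    rw [Finset.disjoint_iff_inter_eq_empty, ← Finset.card_eq_zero]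
    omega
  obtain ⟨B0, B0', hB0, hB0', hB00⟩ := hu
  obtain ⟨c, hc1, hc2⟩ := kneser_upper (rr_isRank h Z) t
    ⟨_, _, hfl _ _ hB0 hB0' hB00⟩ X hX ht
  refine ⟨fun B => if IsBase (rr r Z) (fl Z B) then c (fl Z B) else 0, ?_, ?_⟩
  · intro B hB
    have hpos : 0 < t := lt_of_le_of_lt (Nat.zero_le _) (hc1 _ (hfl _ _ hB0 hB0' hB00).1)
    by_cases hb : IsBase (rr r Z) (fl Z B)
    · simp only [hb, if_true]; exact hc1 _ hb
    · simp only [hb, if_false]; exact hpos
  · intro B B' hB hB' hBB
    obtain ⟨h1, h2, h3⟩ := hfl B B' hB hB' hBB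
    simp only [h1, h2, if_true]
    exact hc2 _ _ h1 h2 h3

end ext

section sum

variable {E F : Type*} [DecidableEq E] [DecidableEq F]

/-- rank of a direct sum -/
def sm (r : Finset E → ℕ) (s : Finset F → ℕ) (A : Finset (E ⊕ F)) : ℕ := r A.toLeft + s A.toRight

theorem sm_isRank {r : Finset E → ℕ} {s : Finset F → ℕ} (h : IsRank r) (h' : IsRank s) :
    IsRank (sm r s) := by
  refine ⟨?_, ?_, ?_⟩
  · intro A B hAB
    unfold sm
    have h1 := h.mono _ _ (toLeft_subset_toLeft hAB)
    have h2 := h'.mono _ _ (toRight_subset_toRight hAB)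
    omega
  · intro A
    unfold sm
    have h1 := h.le_card A.toLeft
    have h2 := h'.le_card A.toRight
    have h3 := card_toLeft_add_card_toRight (u := A)
    omega
  · intro A B
    unfold sm
    have h1 := h.submod A.toLeft B.toLeft
    have h2 := h'.submod A.toRight B.toRight
    rw [toLeft_union, toLeft_inter, toRight_union, toRight_inter]
    omega

theorem sm_univ [Fintype E] [Fintype F] (r : Finset E → ℕ) (s : Finset F → ℕ) :
    sm r s univ = r univ + s univ := by
  unfold sm; rw [toLeft_univ', toRight_univ']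

theorem sm_base [Fintype E] [Fintype F] {r : Finset E → ℕ} {s : Finset F → ℕ} (h : IsRank r)
    (h' : IsRank s) {A : Finset (E ⊕ F)} (hA : IsBase (sm r s) A) :
    IsBase r A.toLeft ∧ IsBase s A.toRight := by
  obtain ⟨h1, h2⟩ := hA
  rw [sm_univ] at h1 h2
  unfold sm at h1
  have h3 := card_toLeft_add_card_toRight (u := A)
  have h4 := h.le_card A.toLeft
  have h5 := h'.le_card A.toRight
  have h6 := h.mono A.toLeft univ (subset_univ _)
  have h7 := h'.mono A.toRight univ (subset_univ _)
  refine ⟨⟨?_, ?_⟩, ⟨?_, ?_⟩⟩ <;> omega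

/-- non-negativity of the defect -/
theorem defect_nonneg [Fintype E] {r : Finset E → ℕ} (h : IsRank r)
    (hdis : ∃ B B', IsBase r B ∧ IsBase r B' ∧ Disjoint B B') (X : Finset E) :
    X.card + 2 * r univ ≤ Fintype.card E + 2 * r X := by
  have hb : ∀ B, IsBase r B → r univ ≤ (B \ X).card + r X := by
    intro B hB
    have h1 := h.union_le X (B \ X)
    have h2 : B ⊆ X ∪ (B \ X) := by
      intro x hx
      simp only [mem_union, mem_sdiff]
      tauto
    have h3 := h.mono _ _ h2
    have h4 := h.le_card (B \ X)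
    have h5 := hB.1
    omega
  have hXc : Xᶜ.card + X.card = Fintype.card E := by
    rw [add_comm]; exact card_add_card_compl X
  obtain ⟨B, B', hB, hB', hBB⟩ := hdis
  have h1 : (B \ X).card + (B' \ X).card ≤ Xᶜ.card := by
    rw [← card_union_of_disjoint (disjoint_of_subset_left sdiff_subset
      (disjoint_of_subset_right sdiff_subset hBB))]
    apply card_le_card
    intro x
    simp only [mem_union, mem_sdiff, mem_compl]
    tauto
  have h2 := hb _ hB
  have h3 := hb _ hB'
  omega

theorem inter_card_le [Fintype E] {q : Finset E → ℕ} (hq : IsRank q) (Y : Finset E) {B : Finset E}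
    (hB : IsBase q B) : (B ∩ Y).card ≤ q Y := by
  have n1 := hq.null_mono (inter_subset_left : B ∩ Y ⊆ B)
  have n2 := hq.mono (B ∩ Y) Y inter_subset_right
  have := hB.1
  have := hB.2
  omega

theorem tight_le [Fintype E] {q : Finset E → ℕ} (hq : IsRank q) (k : ℕ)
    (hk : ∃ B B', IsBase q B ∧ IsBase q B' ∧ (B ∪ B').card = k) (Y : Finset E) :
    k ≤ Yᶜ.card + 2 * q Y := by
  obtain ⟨B, B', hB, hB', hBB⟩ := hk
  have h1 := card_fl_union Y B B'
  have i1 := inter_card_le hq Y hB
  have i2 := inter_card_le hq Y hB'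
  omega

theorem fl_pair [Fintype E] {q : Finset E → ℕ} (hq : IsRank q) (k : ℕ)
    (Y : Finset E) (hY : Yᶜ.card + 2 * q Y = k) (D D' : Finset E)
    (hD : IsBase (rr q Y) D) (hD' : IsBase (rr q Y) D') (hDD : Disjoint D D') :
    IsBase q (fl Y D) ∧ IsBase q (fl Y D') ∧ (fl Y D ∪ fl Y D').card = k := by
  obtain ⟨a1, a2⟩ := base_of_rr hq hD
  obtain ⟨b1, b2⟩ := base_of_rr hq hD'
  refine ⟨a1, b1, ?_⟩
  have h1 := card_fl_union Y (fl Y D) (fl Y D')
  rw [fl_fl, fl_fl, Finset.disjoint_iff_inter_eq_empty.1 hDD, card_empty] at h1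
  omega

theorem rr_disj [Fintype E] {q : Finset E → ℕ} (hq : IsRank q) (k : ℕ)
    (hk : ∃ B B', IsBase q B ∧ IsBase q B' ∧ (B ∪ B').card = k)
    (Y : Finset E) (hY : Yᶜ.card + 2 * q Y = k) :
    ∃ D D', IsBase (rr q Y) D ∧ IsBase (rr q Y) D' ∧ Disjoint D D' := by
  obtain ⟨B, B', hB, hB', hBB⟩ := hk
  have h1 := card_fl_union Y B B'
  have i1 := inter_card_le hq Y hB
  have i2 := inter_card_le hq Y hB'
  refine ⟨_, _, rr_of_base hq hB (by omega), rr_of_base hq hB' (by omega), ?_⟩
  rw [Finset.disjoint_iff_inter_eq_empty, ← Finset.card_eq_zero]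
  omega

/-- **Main theorem**, in terms of rank functions. -/
theorem main_abs [Fintype E] [Fintype F] {r : Finset E → ℕ} {s : Finset F → ℕ} (h : IsRank r)
    (h' : IsRank s) (u v t : ℕ)
    (hu : ∀ B B', IsBase r B → IsBase r B' → (B ∪ B').card ≤ u)
    (hu' : ∃ B B', IsBase r B ∧ IsBase r B' ∧ (B ∪ B').card = u)
    (hv : ∀ B B', IsBase s B → IsBase s B' → (B ∪ B').card ≤ v)
    (hv' : ∃ B B', IsBase s B ∧ IsBase s B' ∧ (B ∪ B').card = v)
    (C : Finset E → Finset F → ℕ)
    (hC : ∀ A B, IsBase r A → IsBase s B → C A B < t)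
    (hC' : ∀ A A' B B', IsBase r A → IsBase r A' → IsBase s B → IsBase s B' →
      (A ∪ A').card = u → (B ∪ B').card = v → C A B ≠ C A' B') :
    Good r u t ∨ Good s v t := by
  classical
  obtain ⟨Z, hZ⟩ := union_tight h u hu
  obtain ⟨W, hW⟩ := union_tight h' v hv
  have hZc : Zᶜ.card + Z.card = Fintype.card E := by
    rw [add_comm]; exact card_add_card_compl Z
  have hWc : Wᶜ.card + W.card = Fintype.card F := by
    rw [add_comm]; exact card_add_card_compl W
  have hZ' := tight_le h u hu' Z
  have hW' := tight_le h' v hv' W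
  have hZe : Zᶜ.card + 2 * r Z = u := by omega
  have hWe : Wᶜ.card + 2 * s W = v := by omega
  have hr := rr_isRank h Z
  have hs := rr_isRank h' W
  obtain ⟨X, hX1, hX2⟩ := kneser_lower (sm_isRank hr hs) t
    (fun D => C (fl Z D.toLeft) (fl W D.toRight)) (by
      intro D hD
      obtain ⟨h1, h2⟩ := sm_base hr hs hD
      exact hC _ _ (base_of_rr h h1).1 (base_of_rr h' h2).1) (by
      intro D D' hD hD' hDD
      obtain ⟨h1, h2⟩ := sm_base hr hs hD
      obtain ⟨h1', h2'⟩ := sm_base hr hs hD'
      have dl : Disjoint D.toLeft D'.toLeft := by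
        rw [Finset.disjoint_left] at hDD ⊢
        intro x hx hx'
        rw [mem_toLeft] at hx hx'
        exact hDD hx hx'
      have dr : Disjoint D.toRight D'.toRight := by
        rw [Finset.disjoint_left] at hDD ⊢
        intro x hx hx'
        rw [mem_toRight] at hx hx'
        exact hDD hx hx'
      obtain ⟨p1, p2, p3⟩ := fl_pair h u Z hZe _ _ h1 h1' dl
      obtain ⟨q1, q2, q3⟩ := fl_pair h' v W hWe _ _ h2 h2' dr
      exact hC' _ _ _ _ p1 p2 q1 q2 p3 q3)
  rw [sm_univ] at hX1 hX2
  rw [Fintype.card_sum] at hX2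
  have hXc := card_toLeft_add_card_toRight (u := X)
  have d1 := defect_nonneg hr (rr_disj h u hu' Z hZe) X.toLeft
  have d2 := defect_nonneg hs (rr_disj h' v hv' W hWe) X.toRight
  have m1 := hr.mono X.toLeft univ (subset_univ _)
  have m2 := hs.mono X.toRight univ (subset_univ _)
  unfold sm at hX1 hX2
  by_cases hl : rr r Z X.toLeft < rr r Z univ
  · left
    exact good_of_set h u t hu' Z hZ X.toLeft hl (by omega)
  · right
    exact good_of_set h' v t hv' W hW X.toRight (by omega) (by omega)

end sum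

end Pool.Agent.R489.Bor
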